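import Pool.Agent.E8helper11.FZ.Base

/-!
# Percolation with constant freezing: the upper bound (piece UP)
-/

set_option autoImplicit false

namespace Pool.Agent.E8helper55.FZ

open Finset hiding expect
open Pool.Agent.E8helper11.FZ

set_option linter.unusedSectionVars false

section general

variable {V : Type} [Fintype V] [DecidableEq V]

theorem expect_le_of_super (G : SimpleGraph V) {α : ℝ} (hα : 0 < α) (f : Finset (Sym2 V) → ℝ)
    (hf : ∀ ω, f ω ≤ 1) (H : State V → ℝ) (P : State V → Prop)
    (hP1 : ∀ s, P s → ∀ e ∈ canOpen G s, P ⟨insert e s.openE, s.frozen⟩)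
    (hP2 : ∀ s, P s → ∀ C ∈ warmClusters s, P ⟨s.openE, s.frozen ∪ C⟩)
    (hend : ∀ s, P s → warmClusters s = ∅ → f s.openE ≤ H s)
    (hstep : ∀ s, P s → warmClusters s ≠ ∅ → 1 ≤ H s ∨
      ∑ e ∈ canOpen G s, H ⟨insert e s.openE, s.frozen⟩ +
        α * ∑ C ∈ warmClusters s, H ⟨s.openE, s.frozen ∪ C⟩ ≤
      H s * ((canOpen G s).card + α * (warmClusters s).card)) (n : ℕ) :
    ∀ s, P s → rest G s ≤ n → expect G α n s f ≤ H s := by
  induction n with
  | zero =>
    intro s hs hr
    have h : warmClusters s = ∅ := by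
      rw [warm_empty_iff]
      by_contra hc
      push Not at hc
      obtain ⟨v, hv⟩ := hc
      have : 0 < (univ.filter fun v => v ∉ s.frozen).card := card_pos.2 ⟨v, by simp [hv]⟩
      unfold rest at hr
      omega
    exact hend s hs h
  | succ n ih =>
    intro s hs hr
    by_cases h : warmClusters s = ∅
    · rw [expect, if_pos h]
      exact hend s hs h
    · rcases hstep s hs h with h1 | h1
      · refine le_trans ?_ h1
        have := expect_mono G hα (n + 1) s f (fun _ => 1) hf
        rwa [expect_const G hα] at this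
      · rw [expect_succ G α n s h, div_le_iff₀ (denom_pos G hα s h)]
        refine le_trans ?_ h1
        gcongr with e he C hC
        · exact ih _ (hP1 s hs e he) (by have := rest_open G s e he; omega)
        · exact ih _ (hP2 s hs C hC) (by have := rest_freeze G s C hC; omega)

theorem reach_closed {O : Finset (Sym2 V)} {A : Set V} (hA : ∀ a b, s(a, b) ∈ O → a ∈ A → b ∈ A)
    {a b : V} (h : (SimpleGraph.fromEdgeSet (O : Set (Sym2 V))).Reachable a b) (ha : a ∈ A) :
    b ∈ A := by
  rw [SimpleGraph.reachable_iff_reflTransGen] at h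
  induction h with
  | refl => exact ha
  | tail _ h2 ih =>
    rw [SimpleGraph.fromEdgeSet_adj] at h2
    exact hA _ _ (by exact_mod_cast h2.1) ih

theorem reach_isolated {O : Finset (Sym2 V)} {u w : V} (hu : ∀ e ∈ O, u ∉ e)
    (h : (SimpleGraph.fromEdgeSet (O : Set (Sym2 V))).Reachable u w) : w = u := by
  have := reach_closed (A := {u}) (fun a b hab ha => by
    rw [Set.mem_singleton_iff] at ha
    subst ha
    exact absurd (Sym2.mem_mk_left _ _) (hu _ hab)) h rfl
  exact this

theorem mem_cluster {O : Finset (Sym2 V)} {v w : V} :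
    w ∈ cluster O v ↔ (SimpleGraph.fromEdgeSet (O : Set (Sym2 V))).Reachable v w := by
  unfold cluster
  simp

theorem cluster_isolated {O : Finset (Sym2 V)} {u : V} (hu : ∀ e ∈ O, u ∉ e) :
    cluster O u = {u} := by
  ext w
  rw [mem_cluster, mem_singleton]
  constructor
  · exact reach_isolated hu
  · rintro rfl
    exact SimpleGraph.Reachable.refl _

theorem cluster_eq_of_mem {O : Finset (Sym2 V)} {v w : V} (h : w ∈ cluster O v) :
    cluster O v = cluster O w := by
  rw [mem_cluster] at h
  ext y
  rw [mem_cluster, mem_cluster]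
  exact ⟨fun h' => h.symm.trans h', fun h' => h.trans h'⟩

theorem mem_warm {s : State V} {C : Finset V} :
    C ∈ warmClusters s ↔ ∃ v, v ∉ s.frozen ∧ cluster s.openE v = C := by
  unfold warmClusters
  simp

/-- an element of a cluster determines it -/
theorem warm_eq {s : State V} {C : Finset V} (hC : C ∈ warmClusters s) {w : V} (hw : w ∈ C) :
    C = cluster s.openE w := by
  obtain ⟨v, _, rfl⟩ := mem_warm.1 hC
  exact cluster_eq_of_mem hw

end general


section specific

variable {T m : ℕ}

/-- the hub of the `t`-th odd row -/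
def uu (T m : ℕ) (t : Fin T) : W T m := hub T m ⟨2 * t + 1, by omega⟩

theorem uu_inj {t t' : Fin T} (h : uu T m t = uu T m t') : t = t' := by
  simp only [uu, hub, Sum.inl.injEq, Prod.mk.injEq, Fin.mk.injEq, and_true] at h
  ext
  omega

theorem uu_not_adj (t t' : Fin T) : ¬ (Gr T m).Adj (uu T m t) (uu T m t') := by
  rintro (h | h | h)
  · exact h.2 rfl
  · have := h.1
    simp only at this
    omega
  · have := h.1
    simp only at this
    omega

theorem uu_unique {e : Sym2 (W T m)} (he : e ∈ (Gr T m).edgeSet) {t t' : Fin T}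
    (h : uu T m t ∈ e) (h' : uu T m t' ∈ e) : t = t' := by
  by_contra hne
  have h1 : uu T m t ≠ uu T m t' := fun h => hne (uu_inj h)
  have h2 := (Sym2.mem_and_mem_iff h1).1 ⟨h, h'⟩
  rw [h2, SimpleGraph.mem_edgeSet] at he
  exact uu_not_adj t t' he

theorem deg_uu (t : Fin T) (s : State (W T m)) :
    ((canOpen (Gr T m) s).filter (fun e => uu T m t ∈ e)).card ≤ 2 * m + 2 := by
  classical
  set N1 : Finset (W T m) := ((univ : Finset (Fin (m + 1))).erase 0).image
    (fun j => (Sum.inl (⟨2 * t + 1, by omega⟩, j) : W T m)) with hN1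
  set N2 : Finset (W T m) := (univ : Finset (Fin (m + 1))).image
    (fun j => (Sum.inl (⟨2 * t, by omega⟩, j) : W T m)) with hN2
  set N3 : Finset (W T m) := {(Sum.inl (⟨2 * t + 2, by omega⟩, 0) : W T m)} with hN3
  have hsub : (canOpen (Gr T m) s).filter (fun e => uu T m t ∈ e) ⊆
      (N1 ∪ N2 ∪ N3).image (fun w => s(uu T m t, w)) := by
    intro e he
    rw [mem_filter, mem_canOpen] at he
    obtain ⟨⟨he1, _, _⟩, he2⟩ := he
    obtain ⟨w, rfl⟩ := Sym2.mem_iff_exists.1 he2
    rw [SimpleGraph.mem_edgeSet] at he1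
    rw [mem_image]
    refine ⟨w, ?_, rfl⟩
    rw [mem_union, mem_union]
    rcases w with y | b
    · rcases he1 with h | h | h
      · left; left
        rw [hN1, mem_image]
        refine ⟨y.2, ?_, ?_⟩
        · rw [mem_erase]
          exact ⟨fun h' => h.2 h'.symm, mem_univ _⟩
        · rw [Sum.inl.injEq]
          exact Prod.ext h.1 rfl
      · right
        rw [hN3, mem_singleton, Sum.inl.injEq]
        refine Prod.ext (Fin.ext ?_) h.2
        have := h.1
        simp only at this
        simp only [this]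
      · left; right
        rw [hN2, mem_image]
        refine ⟨y.2, mem_univ _, ?_⟩
        rw [Sum.inl.injEq]
        refine Prod.ext (Fin.ext ?_) rfl
        have := h.1
        simp only at this
        simp only
        omega
    · exfalso
      have h := he1.2
      simp only at h
      split_ifs at h
      have := t.2
      omega
  have h1 : N1.card ≤ m := by
    refine card_image_le.trans ?_
    rw [card_erase_of_mem (mem_univ _), card_univ, Fintype.card_fin]
    omega
  have h2 : N2.card ≤ m + 1 := by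
    refine card_image_le.trans ?_
    rw [card_univ, Fintype.card_fin]
  have h3 : N3.card ≤ 1 := by
    rw [hN3, card_singleton]
  have h4 := card_le_card hsub
  have h5 := card_union_le (N1 ∪ N2) N3
  have h6 := card_union_le N1 N2
  have h7 : ((N1 ∪ N2 ∪ N3).image (fun w => s(uu T m t, w))).card ≤ (N1 ∪ N2 ∪ N3).card :=
    card_image_le
  omega

noncomputable def zz (m : ℕ) (α : ℝ) : ℝ := (1 + α / (2 * m + 2))⁻¹

theorem zz_pos (m : ℕ) {α : ℝ} (hα : 0 < α) : 0 < zz m α := by
  unfold zz
  positivity

theorem zz_le (m : ℕ) {α : ℝ} (hα : 0 < α) : zz m α ≤ 1 := by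
  unfold zz
  apply inv_le_one_of_one_le₀
  have : 0 ≤ α / (2 * m + 2) := by positivity
  linarith

theorem zz_inv (m : ℕ) {α : ℝ} (hα : 0 < α) : zz m α * (1 + α / (2 * m + 2)) = 1 := by
  unfold zz
  have : 0 < α / (2 * m + 2) := by positivity
  exact inv_mul_cancel₀ (by positivity)

open Classical in
noncomputable def wf (T m : ℕ) (α : ℝ) (t : Fin T) (s : State (W T m)) : ℝ :=
  if ∃ e ∈ s.openE, uu T m t ∈ e then 1 else if uu T m t ∈ s.frozen then 0 else zz m α

noncomputable def Wf (T m : ℕ) (α : ℝ) (s : State (W T m)) : ℝ := ∏ t, wf T m α t s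

theorem wf_nonneg {α : ℝ} (hα : 0 < α) (t : Fin T) (s : State (W T m)) : 0 ≤ wf T m α t s := by
  unfold wf
  split_ifs
  · exact zero_le_one
  · exact le_rfl
  · exact (zz_pos m hα).le

theorem Wf_nonneg {α : ℝ} (hα : 0 < α) (s : State (W T m)) : 0 ≤ Wf T m α s :=
  prod_nonneg fun t _ => wf_nonneg hα t s

theorem wf_freeze {α : ℝ} (hα : 0 < α) (t : Fin T) (s : State (W T m)) (C : Finset (W T m)) :
    wf T m α t ⟨s.openE, s.frozen ∪ C⟩ ≤ wf T m α t s := by
  classical
  unfold wf
  simp only
  by_cases h : ∃ e ∈ s.openE, uu T m t ∈ e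
  · rw [if_pos h, if_pos h]
  · rw [if_neg h, if_neg h]
    by_cases h2 : uu T m t ∈ s.frozen
    · rw [if_pos h2, if_pos (mem_union_left _ h2)]
    · rw [if_neg h2]
      split_ifs
      · exact (zz_pos m hα).le
      · exact le_rfl

theorem Wf_freeze {α : ℝ} (hα : 0 < α) (s : State (W T m)) (C : Finset (W T m)) :
    Wf T m α ⟨s.openE, s.frozen ∪ C⟩ ≤ Wf T m α s :=
  prod_le_prod (fun t _ => wf_nonneg hα t _) fun t _ => wf_freeze hα t s C

open Classical in
/-- the active odd hubs -/
noncomputable def act (T m : ℕ) (s : State (W T m)) : Finset (Fin T) :=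
  univ.filter fun t => (¬ ∃ e ∈ s.openE, uu T m t ∈ e) ∧ uu T m t ∉ s.frozen

theorem mem_act {s : State (W T m)} {t : Fin T} :
    t ∈ act T m s ↔ (¬ ∃ e ∈ s.openE, uu T m t ∈ e) ∧ uu T m t ∉ s.frozen := by
  unfold act
  simp only [mem_filter, mem_univ, true_and]

theorem Wf_open {α : ℝ} (hα : 0 < α) (s : State (W T m)) (e : Sym2 (W T m))
    (he : e ∈ canOpen (Gr T m) s) :
    Wf T m α ⟨insert e s.openE, s.frozen⟩ ≤ Wf T m α s +
      ∑ t ∈ act T m s, (if uu T m t ∈ e then α / (2 * m + 2) * Wf T m α s else 0) := by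
  classical
  rw [mem_canOpen] at he
  have hsum : 0 ≤ ∑ t ∈ act T m s, (if uu T m t ∈ e then α / (2 * m + 2) * Wf T m α s else 0) := by
    apply sum_nonneg
    intro t _
    split_ifs
    · have := Wf_nonneg hα s
      positivity
    · exact le_rfl
  by_cases h : ∃ t, uu T m t ∈ e
  · obtain ⟨t₀, ht₀⟩ := h
    have hother : ∀ t ∈ (univ : Finset (Fin T)).erase t₀,
        wf T m α t ⟨insert e s.openE, s.frozen⟩ = wf T m α t s := by
      intro t ht
      have hne : t ≠ t₀ := ne_of_mem_erase ht
      have hne' : uu T m t ∉ e := fun h => hne (uu_unique he.1 h ht₀)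
      unfold wf
      have : (∃ e' ∈ insert e s.openE, uu T m t ∈ e') ↔ ∃ e' ∈ s.openE, uu T m t ∈ e' := by
        constructor
        · rintro ⟨e', he', h'⟩
          rcases mem_insert.1 he' with rfl | he'
          · exact absurd h' hne'
          · exact ⟨e', he', h'⟩
        · rintro ⟨e', he', h'⟩
          exact ⟨e', mem_insert_of_mem he', h'⟩
      simp only [this]
    have hprod : Wf T m α ⟨insert e s.openE, s.frozen⟩ =
        ∏ t ∈ (univ : Finset (Fin T)).erase t₀, wf T m α t s := by
      unfold Wf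
      rw [← mul_prod_erase univ _ (mem_univ t₀), prod_congr rfl hother]
      have : wf T m α t₀ ⟨insert e s.openE, s.frozen⟩ = 1 := by
        unfold wf
        rw [if_pos ⟨e, mem_insert_self _ _, ht₀⟩]
      rw [this, one_mul]
    have hprod2 : Wf T m α s = wf T m α t₀ s * ∏ t ∈ (univ : Finset (Fin T)).erase t₀, wf T m α t s := by
      unfold Wf
      rw [← mul_prod_erase univ _ (mem_univ t₀)]
    have hnf : uu T m t₀ ∉ s.frozen := he.2.2 _ ht₀
    by_cases ha : ∃ e' ∈ s.openE, uu T m t₀ ∈ e'
    · have h1 : wf T m α t₀ s = 1 := by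
        unfold wf
        rw [if_pos ha]
      rw [h1, one_mul] at hprod2
      rw [hprod, ← hprod2]
      linarith
    · have h1 : wf T m α t₀ s = zz m α := by
        unfold wf
        rw [if_neg ha, if_neg hnf]
      have hmem : t₀ ∈ act T m s := mem_act.2 ⟨ha, hnf⟩
      have h2 : α / (2 * m + 2) * Wf T m α s ≤
          ∑ t ∈ act T m s, (if uu T m t ∈ e then α / (2 * m + 2) * Wf T m α s else 0) := by
        have := single_le_sum (f := fun t => if uu T m t ∈ e then α / (2 * m + 2) * Wf T m α s else 0)
          (fun t _ => by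
            show 0 ≤ (if uu T m t ∈ e then α / (2 * m + 2) * Wf T m α s else 0)
            split_ifs
            · have := Wf_nonneg hα s
              positivity
            · exact le_rfl) hmem
        simpa only [ht₀, if_true] using this
      have h3 : Wf T m α ⟨insert e s.openE, s.frozen⟩ = Wf T m α s * (1 + α / (2 * m + 2)) := by
        rw [hprod, hprod2, h1]
        have := zz_inv m hα
        calc _ = (zz m α * (1 + α / (2 * m + 2))) * ∏ t ∈ (univ : Finset (Fin T)).erase t₀, wf T m α t s := by
              rw [this, one_mul]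
          _ = _ := by ring
      rw [h3]
      linarith
  · push Not at h
    have : Wf T m α ⟨insert e s.openE, s.frozen⟩ = Wf T m α s := by
      unfold Wf
      apply prod_congr rfl
      intro t _
      unfold wf
      have : (∃ e' ∈ insert e s.openE, uu T m t ∈ e') ↔ ∃ e' ∈ s.openE, uu T m t ∈ e' := by
        constructor
        · rintro ⟨e', he', h'⟩
          rcases mem_insert.1 he' with rfl | he'
          · exact absurd h' (h t)
          · exact ⟨e', he', h'⟩
        · rintro ⟨e', he', h'⟩
          exact ⟨e', mem_insert_of_mem he', h'⟩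
      simp only [this]
    rw [this]
    linarith

theorem Wf_super {α : ℝ} (hα : 0 < α) (s : State (W T m)) :
    ∑ e ∈ canOpen (Gr T m) s, Wf T m α ⟨insert e s.openE, s.frozen⟩ +
        α * ∑ C ∈ warmClusters s, Wf T m α ⟨s.openE, s.frozen ∪ C⟩ ≤
      Wf T m α s * ((canOpen (Gr T m) s).card + α * (warmClusters s).card) := by
  classical
  have hW := Wf_nonneg hα s
  have hopen : ∑ e ∈ canOpen (Gr T m) s, Wf T m α ⟨insert e s.openE, s.frozen⟩ ≤
      Wf T m α s * (canOpen (Gr T m) s).card + α * Wf T m α s * (act T m s).card := by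
    calc _ ≤ ∑ e ∈ canOpen (Gr T m) s, (Wf T m α s +
          ∑ t ∈ act T m s, (if uu T m t ∈ e then α / (2 * m + 2) * Wf T m α s else 0)) :=
          sum_le_sum fun e he => Wf_open hα s e he
      _ = Wf T m α s * (canOpen (Gr T m) s).card + ∑ t ∈ act T m s,
          (((canOpen (Gr T m) s).filter (fun e => uu T m t ∈ e)).card : ℝ) * (α / (2 * m + 2) * Wf T m α s) := by
          rw [sum_add_distrib, sum_const, nsmul_eq_mul, mul_comm, sum_comm]
          congr 1
          apply sum_congr rfl
          intro t _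
          rw [← sum_filter, sum_const, nsmul_eq_mul]
      _ ≤ Wf T m α s * (canOpen (Gr T m) s).card + ∑ t ∈ act T m s,
          ((2 * m + 2 : ℝ)) * (α / (2 * m + 2) * Wf T m α s) := by
          gcongr with t ht
          exact_mod_cast deg_uu t s
      _ = _ := by
          rw [sum_const, nsmul_eq_mul]
          field_simp
  have hfr : ∑ C ∈ warmClusters s, Wf T m α ⟨s.openE, s.frozen ∪ C⟩ ≤
      Wf T m α s * (warmClusters s).card - Wf T m α s * (act T m s).card := by
    set I : Finset (Finset (W T m)) := (act T m s).image (fun t => ({uu T m t} : Finset (W T m))) with hI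
    have hIs : I ⊆ warmClusters s := by
      intro C hC
      rw [hI, mem_image] at hC
      obtain ⟨t, ht, rfl⟩ := hC
      rw [mem_act] at ht
      rw [mem_warm]
      refine ⟨uu T m t, ht.2, cluster_isolated ?_⟩
      intro e he h
      exact ht.1 ⟨e, he, h⟩
    have hIc : I.card = (act T m s).card := by
      rw [hI]
      apply card_image_of_injective
      intro t t' h
      exact uu_inj (singleton_injective h)
    have hI0 : ∀ C ∈ I, Wf T m α ⟨s.openE, s.frozen ∪ C⟩ = 0 := by
      intro C hC
      rw [hI, mem_image] at hC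
      obtain ⟨t, ht, rfl⟩ := hC
      rw [mem_act] at ht
      unfold Wf
      apply prod_eq_zero (mem_univ t)
      unfold wf
      rw [if_neg ht.1, if_pos (by simp)]
    rw [← sum_sdiff hIs, sum_eq_zero hI0, add_zero]
    calc _ ≤ ∑ C ∈ warmClusters s \ I, Wf T m α s := sum_le_sum fun C _ => Wf_freeze hα s C
      _ = Wf T m α s * (warmClusters s).card - Wf T m α s * (act T m s).card := by
          rw [sum_const, nsmul_eq_mul, card_sdiff_of_subset hIs, hIc, Nat.cast_sub]
          · ring
          · rw [← hIc]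
            exact card_le_card hIs
  have := mul_le_mul_of_nonneg_left hfr hα.le
  linarith


/-! ### The pendant edges -/

open Classical in
noncomputable def sf (x : ℝ) (e : Sym2 (W T m)) (s : State (W T m)) : ℝ :=
  if e ∈ s.openE then 0 else if ∃ v ∈ e, v ∈ s.frozen then 1 else x

noncomputable def SS (T m : ℕ) (x : ℝ) (s : State (W T m)) : ℝ := sf x (e1 T m) s * sf x (e2 T m) s

theorem sf_nonneg {x : ℝ} (hx : 0 ≤ x) (e : Sym2 (W T m)) (s : State (W T m)) : 0 ≤ sf x e s := by
  unfold sf
  split_ifs
  · exact le_rfl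
  · exact zero_le_one
  · exact hx

theorem sf_le {x : ℝ} (hx : x ≤ 1) (e : Sym2 (W T m)) (s : State (W T m)) : sf x e s ≤ 1 := by
  unfold sf
  split_ifs
  · exact zero_le_one
  · exact le_rfl
  · exact hx

theorem sf_open {x : ℝ} {e : Sym2 (W T m)} {s : State (W T m)} (h : e ∈ s.openE) : sf x e s = 0 := by
  unfold sf
  rw [if_pos h]

theorem e1_mem : e1 T m ∈ (Gr T m).edgeSet := by
  unfold e1
  rw [SimpleGraph.mem_edgeSet]
  exact ⟨rfl, rfl⟩

theorem e2_mem : e2 T m ∈ (Gr T m).edgeSet := by
  unfold e2
  rw [SimpleGraph.mem_edgeSet]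
  refine ⟨rfl, ?_⟩
  simp

theorem e1_ne_e2 : e1 T m ≠ e2 T m := by
  intro h
  have : (Sum.inr false : W T m) ∈ e2 T m := by
    rw [← h]
    exact Sym2.mem_mk_right _ _
  unfold e2 hub at this
  simp at this

theorem iso_bool {s : State (W T m)} (hs : ∀ e ∈ s.openE, e ∈ (Gr T m).edgeSet) (b : Bool)
    (hb : (if b then e2 T m else e1 T m) ∉ s.openE) : ∀ e ∈ s.openE, (Sum.inr b : W T m) ∉ e := by
  intro e he hbe
  obtain ⟨w, rfl⟩ := Sym2.mem_iff_exists.1 hbe
  have hadj := hs _ he
  rw [SimpleGraph.mem_edgeSet] at hadj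
  apply hb
  rcases w with y | c
  · have h1 : y.2 = 0 ∧ (y.1 : ℕ) = if b then 2 * T else 0 := hadj
    have h2 : s(Sum.inr b, Sum.inl y) = (if b then e2 T m else e1 T m) := by
      rw [Sym2.eq_swap]
      cases b
      · simp only [Bool.false_eq_true, if_false] at h1 ⊢
        unfold e1 hub
        have : y = (0, 0) := Prod.ext (Fin.ext (by simpa using h1.2)) h1.1
        rw [this]
      · simp only [if_true] at h1 ⊢
        unfold e2 hub
        have : y = (Fin.last (2 * T), 0) := Prod.ext (Fin.ext (by simpa using h1.2)) h1.1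
        rw [this]
    rw [← h2]
    exact he
  · exact absurd hadj (fun h => h)

theorem touch_card (s : State (W T m)) (a b : W T m) [DecidablePred fun C : Finset (W T m) => ∃ v ∈ s(a, b), v ∈ C] :
    ((warmClusters s).filter (fun C => ∃ v ∈ s(a, b), v ∈ C)).card ≤ 2 := by
  classical
  have : (warmClusters s).filter (fun C => ∃ v ∈ s(a, b), v ∈ C) ⊆
      {cluster s.openE a, cluster s.openE b} := by
    intro C hC
    rw [mem_filter] at hC
    obtain ⟨hC, v, hv, hvC⟩ := hC
    rw [mem_insert, mem_singleton]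
    rcases Sym2.mem_iff.1 hv with rfl | rfl
    · left; exact warm_eq hC hvC
    · right; exact warm_eq hC hvC
  exact (card_le_card this).trans card_le_two

theorem touch_not_both {s : State (W T m)} (hs : ∀ e ∈ s.openE, e ∈ (Gr T m).edgeSet)
    (h1 : e1 T m ∉ s.openE) (h2 : e2 T m ∉ s.openE)
    (hcl : hub T m (Fin.last (2 * T)) ∉ cluster s.openE (hub T m 0)) {C : Finset (W T m)}
    (hC : C ∈ warmClusters s) : ¬ ((∃ v ∈ e1 T m, v ∈ C) ∧ (∃ v ∈ e2 T m, v ∈ C)) := by
  rintro ⟨⟨v, hv, hvC⟩, ⟨w, hw, hwC⟩⟩
  have hF := cluster_isolated (iso_bool hs false (by simpa using h1))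
  have hT := cluster_isolated (iso_bool hs true (by simpa using h2))
  unfold e1 at hv
  unfold e2 at hw
  rw [Sym2.mem_iff] at hv hw
  rcases hv with rfl | rfl
  · rcases hw with rfl | rfl
    · rw [warm_eq hC hvC] at hwC
      exact hcl hwC
    · rw [warm_eq hC hwC, hT, mem_singleton] at hvC
      simp [hub] at hvC
  · rw [warm_eq hC hvC, hF, mem_singleton] at hwC
    rcases hw with rfl | rfl
    · simp [hub] at hwC
    · simp at hwC

theorem sf_freeze {x : ℝ} {e : Sym2 (W T m)} {s : State (W T m)} (he : e ∉ s.openE)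
    (C : Finset (W T m)) [Decidable (∃ v ∈ e, v ∈ C)] :
    sf x e ⟨s.openE, s.frozen ∪ C⟩ = if ∃ v ∈ e, v ∈ C then 1 else sf x e s := by
  classical
  unfold sf
  simp only [if_neg he]
  by_cases h : ∃ v ∈ e, v ∈ C
  · rw [if_pos h, if_pos]
    obtain ⟨v, hv, hvC⟩ := h
    exact ⟨v, hv, mem_union_right _ hvC⟩
  · rw [if_neg h]
    have : (∃ v ∈ e, v ∈ s.frozen ∪ C) ↔ ∃ v ∈ e, v ∈ s.frozen := by
      constructor
      · rintro ⟨v, hv, hvC⟩
        rcases mem_union.1 hvC with h' | h'
        · exact ⟨v, hv, h'⟩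
        · exact absurd ⟨v, hv, h'⟩ h
      · rintro ⟨v, hv, hvC⟩
        exact ⟨v, hv, mem_union_left _ hvC⟩
    simp only [this]

theorem SS_open {x : ℝ} (s : State (W T m)) {e : Sym2 (W T m)} [Decidable (e = e1 T m ∨ e = e2 T m)] :
    SS T m x ⟨insert e s.openE, s.frozen⟩ = if e = e1 T m ∨ e = e2 T m then 0 else SS T m x s := by
  classical
  by_cases h : e = e1 T m ∨ e = e2 T m
  · rw [if_pos h]
    unfold SS
    rcases h with rfl | rfl
    · rw [sf_open (mem_insert_self _ _), zero_mul]
    · rw [sf_open (e := e2 T m) (mem_insert_self _ _), mul_zero]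
  · rw [if_neg h]
    push Not at h
    unfold SS sf
    simp only [mem_insert, h.1.symm, h.2.symm, false_or]

theorem SS_super {α x : ℝ} (hα : 0 < α) (hx0 : 0 ≤ x) (hx1 : x ≤ 1) (hx : 2 * α * (1 - x) = x)
    (s : State (W T m)) (hs : ∀ e ∈ s.openE, e ∈ (Gr T m).edgeSet)
    (hcl : hub T m (Fin.last (2 * T)) ∉ cluster s.openE (hub T m 0)) :
    ∑ e ∈ canOpen (Gr T m) s, SS T m x ⟨insert e s.openE, s.frozen⟩ +
        α * ∑ C ∈ warmClusters s, SS T m x ⟨s.openE, s.frozen ∪ C⟩ ≤
      SS T m x s * ((canOpen (Gr T m) s).card + α * (warmClusters s).card) := by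
  classical
  by_cases hop : e1 T m ∈ s.openE ∨ e2 T m ∈ s.openE
  · -- everything is zero
    have h0 : ∀ s' : State (W T m), s.openE ⊆ s'.openE → SS T m x s' = 0 := by
      intro s' hs'
      unfold SS
      rcases hop with h | h
      · rw [sf_open (hs' h), zero_mul]
      · rw [sf_open (e := e2 T m) (hs' h), mul_zero]
    rw [h0 s (Subset.refl _), sum_eq_zero, sum_eq_zero]
    · simp
    · intro C _
      exact h0 _ (Subset.refl _)
    · intro e _
      exact h0 _ (subset_insert _ _)
  · push Not at hop
    obtain ⟨ho1, ho2⟩ := hop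
    set s1 := sf x (e1 T m) s with hs1
    set s2 := sf x (e2 T m) s with hs2
    have hSS : SS T m x s = s1 * s2 := rfl
    have hs10 : 0 ≤ s1 := sf_nonneg hx0 _ _
    have hs20 : 0 ≤ s2 := sf_nonneg hx0 _ _
    have hs11 : s1 ≤ 1 := sf_le hx1 _ _
    have hs21 : s2 ≤ 1 := sf_le hx1 _ _
    -- the number of the `e_i` that can open
    have hopen : ∑ e ∈ canOpen (Gr T m) s, SS T m x ⟨insert e s.openE, s.frozen⟩ =
        s1 * s2 * (canOpen (Gr T m) s).card -
          s1 * s2 * ((if e1 T m ∈ canOpen (Gr T m) s then 1 else 0) +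
            (if e2 T m ∈ canOpen (Gr T m) s then 1 else 0)) := by
      have h1 : ∀ e ∈ canOpen (Gr T m) s, SS T m x ⟨insert e s.openE, s.frozen⟩ =
          s1 * s2 - (if e1 T m = e then s1 * s2 else 0) - (if e2 T m = e then s1 * s2 else 0) := by
        intro e _
        rw [SS_open, hSS]
        by_cases h1 : e = e1 T m
        · subst h1
          have h2 : e2 T m ≠ e1 T m := fun h => e1_ne_e2 h.symm
          simp [h2]
        · by_cases h2 : e = e2 T m
          · subst h2
            simp [e1_ne_e2]
          · simp [h1, h2, Ne.symm h1, Ne.symm h2]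
      rw [sum_congr rfl h1, sum_sub_distrib, sum_sub_distrib, sum_const, nsmul_eq_mul, sum_ite_eq,
        sum_ite_eq]
      split_ifs <;> ring
    have hfr : ∑ C ∈ warmClusters s, SS T m x ⟨s.openE, s.frozen ∪ C⟩ ≤
        s1 * s2 * (warmClusters s).card + 2 * ((1 - s1) * s2) + 2 * ((1 - s2) * s1) := by
      have h1 : ∀ C ∈ warmClusters s, SS T m x ⟨s.openE, s.frozen ∪ C⟩ ≤
          s1 * s2 + (if ∃ v ∈ e1 T m, v ∈ C then (1 - s1) * s2 else 0) +
            (if ∃ v ∈ e2 T m, v ∈ C then (1 - s2) * s1 else 0) := by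
        intro C hC
        have hnb := touch_not_both hs ho1 ho2 hcl hC
        unfold SS
        rw [sf_freeze ho1 C, sf_freeze ho2 C]
        by_cases h1 : ∃ v ∈ e1 T m, v ∈ C
        · have h2 : ¬ ∃ v ∈ e2 T m, v ∈ C := fun h2 => hnb ⟨h1, h2⟩
          rw [if_pos h1, if_neg h2, if_pos h1, if_neg h2]
          apply le_of_eq
          ring
        · by_cases h2 : ∃ v ∈ e2 T m, v ∈ C
          · rw [if_neg h1, if_pos h2, if_neg h1, if_pos h2]
            apply le_of_eq
            ring
          · rw [if_neg h1, if_neg h2, if_neg h1, if_neg h2]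
            apply le_of_eq
            ring
      calc _ ≤ ∑ C ∈ warmClusters s, (s1 * s2 + (if ∃ v ∈ e1 T m, v ∈ C then (1 - s1) * s2 else 0) +
            (if ∃ v ∈ e2 T m, v ∈ C then (1 - s2) * s1 else 0)) := sum_le_sum h1
        _ = s1 * s2 * (warmClusters s).card +
            (((warmClusters s).filter (fun C => ∃ v ∈ e1 T m, v ∈ C)).card : ℝ) * ((1 - s1) * s2) +
            (((warmClusters s).filter (fun C => ∃ v ∈ e2 T m, v ∈ C)).card : ℝ) * ((1 - s2) * s1) := by
            rw [sum_add_distrib, sum_add_distrib, sum_const, nsmul_eq_mul, ← sum_filter, ← sum_filter,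
              sum_const, sum_const, nsmul_eq_mul, nsmul_eq_mul]
            ring
        _ ≤ _ := by
            have ht1 : (((warmClusters s).filter (fun C => ∃ v ∈ e1 T m, v ∈ C)).card : ℝ) ≤ 2 := by
              exact_mod_cast touch_card s (hub T m 0) (.inr false)
            have ht2 : (((warmClusters s).filter (fun C => ∃ v ∈ e2 T m, v ∈ C)).card : ℝ) ≤ 2 := by
              exact_mod_cast touch_card s (hub T m (Fin.last (2 * T))) (.inr true)
            have h3 : 0 ≤ (1 - s1) * s2 := mul_nonneg (by linarith) hs20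
            have h4 : 0 ≤ (1 - s2) * s1 := mul_nonneg (by linarith) hs10
            have h5 := mul_le_mul_of_nonneg_right ht1 h3
            have h6 := mul_le_mul_of_nonneg_right ht2 h4
            linarith
    have hal : ∀ e : Sym2 (W T m), e ∈ (Gr T m).edgeSet → e ∉ s.openE →
        2 * α * (1 - sf x e s) = sf x e s * (if e ∈ canOpen (Gr T m) s then 1 else 0) := by
      intro e he heo
      by_cases h : ∃ v ∈ e, v ∈ s.frozen
      · have h1 : sf x e s = 1 := by
          unfold sf
          rw [if_neg heo, if_pos h]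
        have h2 : e ∉ canOpen (Gr T m) s := by
          rw [mem_canOpen]
          rintro ⟨_, _, h3⟩
          obtain ⟨v, hv, hv'⟩ := h
          exact h3 v hv hv'
        rw [h1, if_neg h2]
        ring
      · have h1 : sf x e s = x := by
          unfold sf
          rw [if_neg heo, if_neg h]
        have h2 : e ∈ canOpen (Gr T m) s := by
          rw [mem_canOpen]
          push Not at h
          exact ⟨he, heo, h⟩
        rw [h1, if_pos h2, hx, mul_one]
    have a1 := hal _ e1_mem ho1
    have a2 := hal _ e2_mem ho2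
    rw [← hs1] at a1
    rw [← hs2] at a2
    rw [hopen, hSS]
    have h7 := mul_le_mul_of_nonneg_left hfr hα.le
    have h8 : 2 * α * (1 - s1) * s2 = s1 * (if e1 T m ∈ canOpen (Gr T m) s then 1 else 0) * s2 := by
      rw [a1]
    have h9 : 2 * α * (1 - s2) * s1 = s2 * (if e2 T m ∈ canOpen (Gr T m) s then 1 else 0) * s1 := by
      rw [a2]
    nlinarith [h7, h8, h9]

/-! ### One cluster -/

theorem Wf_one {α : ℝ} {s : State (W T m)} (hs : ∀ e ∈ s.openE, e ∈ (Gr T m).edgeSet)
    (hcl : hub T m (Fin.last (2 * T)) ∈ cluster s.openE (hub T m 0)) : Wf T m α s = 1 := by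
  classical
  unfold Wf
  apply prod_eq_one
  intro t _
  unfold wf
  rw [if_pos]
  by_contra hno
  push Not at hno
  rw [mem_cluster] at hcl
  have key := reach_closed (A := {v : W T m | match v with
    | .inl y => (y.1 : ℕ) < 2 * t + 1
    | .inr b => b = false}) ?_ hcl ?_
  · have ht := t.2
    simp only [hub, Set.mem_ofPred_eq, Fin.val_last] at key
    omega
  · intro a b hab ha
    have hadj := hs _ hab
    rw [SimpleGraph.mem_edgeSet] at hadj
    have hnu := hno _ hab
    have ha' : uu T m t ≠ a := fun h => hnu (h ▸ Sym2.mem_mk_left _ _)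
    have hb' : uu T m t ≠ b := fun h => hnu (h ▸ Sym2.mem_mk_right _ _)
    have ht := t.2
    rcases a with y | c
    · rcases b with z | d
      · simp only [Set.mem_ofPred_eq] at ha ⊢
        rcases hadj with h | h | h
        · rw [← h.1]; exact ha
        · by_contra hcon
          apply hb'
          unfold uu hub
          congr 1
          refine Prod.ext (Fin.ext ?_) h.2.symm
          simp only
          have := h.1
          omega
        · have := h.1
          omega
      · simp only [Set.mem_ofPred_eq] at ha ⊢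
        have h := hadj.2
        cases d
        · rfl
        · simp only [if_true] at h
          omega
    · rcases b with z | d
      · simp only [Set.mem_ofPred_eq] at ha ⊢
        have h := hadj.2
        subst ha
        simp only [Bool.false_eq_true, if_false] at h
        omega
      · exact absurd hadj (fun h => h)
  · simp [hub]

theorem up : S_UP := by
  intro T m hT α hα
  classical
  set x : ℝ := 2 * α / (1 + 2 * α) with hx
  have hx0 : 0 ≤ x := by positivity
  have hx1 : x ≤ 1 := by
    rw [hx, div_le_one (by positivity)]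
    linarith
  have hxe : 2 * α * (1 - x) = x := by
    rw [hx]
    field_simp
    ring
  have hmain := expect_le_of_super (Gr T m) hα ((Dn T m).indicator 1) (fun ω => by
      by_cases h : ω ∈ Dn T m <;> simp [h]) (fun s => Wf T m α s + SS T m x s)
      (fun s => ∀ e ∈ s.openE, e ∈ (Gr T m).edgeSet) ?_ ?_ ?_ ?_ (steps (Gr T m)) ⟨∅, ∅⟩
      (fun e he => absurd he (notMem_empty _)) (rest_init_le _)
  · unfold mu prob
    refine hmain.trans (le_of_eq ?_)
    have h1 : Wf T m α (⟨∅, ∅⟩ : State (W T m)) = (1 + α / (2 * m + 2)) ^ (-(T : ℤ)) := by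
      unfold Wf wf
      simp only [notMem_empty, false_and, exists_false, if_false, prod_const, card_univ, Fintype.card_fin]
      unfold zz
      rw [zpow_neg, zpow_natCast, inv_pow]
    have h2 : SS T m x (⟨∅, ∅⟩ : State (W T m)) = x ^ 2 := by
      unfold SS sf
      simp only [notMem_empty, and_false, exists_false, if_false]
      ring
    rw [h1, h2]
  · intro s hs e he e' he'
    rcases mem_insert.1 he' with rfl | he'
    · exact ((mem_canOpen _ _ _).1 he).1
    · exact hs _ he'
  · intro s hs C _ e he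
    exact hs e he
  · intro s hs hw
    rw [warm_empty_iff] at hw
    have h0 := Wf_nonneg (T := T) (m := m) hα s
    have h1 : (Dn T m).indicator (1 : Finset (Sym2 (W T m)) → ℝ) s.openE ≤ SS T m x s := by
      by_cases h : s.openE ∈ Dn T m
      · rw [Set.indicator_of_mem h, Pi.one_apply]
        have hd : e1 T m ∉ s.openE ∧ e2 T m ∉ s.openE := h
        unfold SS sf
        rw [if_neg hd.1, if_neg hd.2, if_pos, if_pos, one_mul]
        · exact ⟨_, Sym2.mem_mk_left _ _, hw _⟩
        · exact ⟨_, Sym2.mem_mk_left _ _, hw _⟩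
      · rw [Set.indicator_of_notMem h]
        exact mul_nonneg (sf_nonneg hx0 _ _) (sf_nonneg hx0 _ _)
    show _ ≤ Wf T m α s + SS T m x s
    linarith
  · intro s hs hw
    by_cases hcl : hub T m (Fin.last (2 * T)) ∈ cluster s.openE (hub T m 0)
    · left
      have h1 := Wf_one (α := α) hs hcl
      have h2 : 0 ≤ SS T m x s := mul_nonneg (sf_nonneg hx0 _ _) (sf_nonneg hx0 _ _)
      show 1 ≤ Wf T m α s + SS T m x s
      linarith
    · right
      have h1 := Wf_super hα s
      have h2 := SS_super hα hx0 hx1 hxe s hs hcl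
      simp only [sum_add_distrib]
      linarith

end specific

end Pool.Agent.E8helper55.FZ
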